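import Pool.Agent.Helper94.GA.Goals

/-! Packet AVG of helper94 (MP_d69e80_al): the average entropy of random digits. -/

namespace Pool.Agent.Helper33.GA

open Finset
open Pool.Agent.Helper94.GA

universe u

theorem tangent (S z N : ℝ) (hS : 0 < S) (hz : 0 ≤ z) (hN : 0 ≤ N) :
    S / (S + N) - S * (z - N) / (S + N) ^ 2 ≤ S / (S + z) := by
  have h1 : 0 < S + N := by linarith
  have h2 : 0 < S + z := by linarith
  have h : S / (S + z) - (S / (S + N) - S * (z - N) / (S + N) ^ 2)
      = S * (z - N) ^ 2 / ((S + z) * (S + N) ^ 2) := by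
    field_simp
    ring
  have h3 : 0 ≤ S * (z - N) ^ 2 / ((S + z) * (S + N) ^ 2) := by positivity
  linarith

section count
variable {n : ℕ} {C : Type} [Fintype C] [Nonempty C] [DecidableEq C]

theorem prodSum (g : Fin n → C → ℝ) :
    ∑ c : Fin n → C, ∏ l, g l (c l) = ∏ l, ∑ b, g l b := by
  rw [Finset.prod_univ_sum, Fintype.piFinset_univ]

theorem count1 (k : Fin n) (a : C) :
    ∑ c : Fin n → C, (if c k = a then (1 : ℝ) else 0)
      = (Fintype.card C : ℝ) ^ n / Fintype.card C := by
  have hq : (Fintype.card C : ℝ) ≠ 0 := by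
    exact_mod_cast Fintype.card_ne_zero
  have h1 : ∀ c : Fin n → C, (if c k = a then (1 : ℝ) else 0)
      = ∏ l, (if l = k then (if c l = a then (1 : ℝ) else 0) else 1) := by
    intro c
    rw [Finset.prod_ite_eq']
    simp
  rw [Finset.sum_congr rfl (fun c _ => h1 c),
    prodSum (fun l b => if l = k then (if b = a then (1 : ℝ) else 0) else 1)]
  have h2 : ∀ l : Fin n, ∑ b : C, (if l = k then (if b = a then (1 : ℝ) else 0) else 1)
      = (Fintype.card C : ℝ) * (if l = k then 1 / (Fintype.card C : ℝ) else 1) := by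
    intro l
    by_cases h : l = k
    · simp [h, hq]
    · simp [h]
  rw [Finset.prod_congr rfl (fun l _ => h2 l), Finset.prod_mul_distrib, Finset.prod_ite_eq']
  simp
  field_simp

theorem count2 (k k' : Fin n) (a a' : C) (hk : k ≠ k') :
    ∑ c : Fin n → C, (if c k = a then (1 : ℝ) else 0) * (if c k' = a' then (1 : ℝ) else 0)
      = (Fintype.card C : ℝ) ^ n / Fintype.card C * (1 / Fintype.card C) := by
  have hq : (Fintype.card C : ℝ) ≠ 0 := by
    exact_mod_cast Fintype.card_ne_zero
  have h1 : ∀ c : Fin n → C,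
      (if c k = a then (1 : ℝ) else 0) * (if c k' = a' then (1 : ℝ) else 0)
      = ∏ l, ((if l = k then (if c l = a then (1 : ℝ) else 0) else 1) *
          (if l = k' then (if c l = a' then (1 : ℝ) else 0) else 1)) := by
    intro c
    rw [Finset.prod_mul_distrib, Finset.prod_ite_eq', Finset.prod_ite_eq']
    simp
  rw [Finset.sum_congr rfl (fun c _ => h1 c),
    prodSum (fun l b => (if l = k then (if b = a then (1 : ℝ) else 0) else 1) *
          (if l = k' then (if b = a' then (1 : ℝ) else 0) else 1))]
  have h2 : ∀ l : Fin n, ∑ b : C, ((if l = k then (if b = a then (1 : ℝ) else 0) else 1) *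
          (if l = k' then (if b = a' then (1 : ℝ) else 0) else 1))
      = (Fintype.card C : ℝ) * ((if l = k then 1 / (Fintype.card C : ℝ) else 1) *
        (if l = k' then 1 / (Fintype.card C : ℝ) else 1)) := by
    intro l
    by_cases h : l = k
    · have h' : l ≠ k' := fun e => hk (h.symm.trans e)
      rw [if_pos h]
      simp only [if_pos h, if_neg h']
      simp [hq]
    · by_cases h' : l = k'
      · simp only [if_pos h', if_neg h]
        simp [hq]
      · simp [h, h']
  rw [Finset.prod_congr rfl (fun l _ => h2 l), Finset.prod_mul_distrib, Finset.prod_mul_distrib,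
    Finset.prod_ite_eq', Finset.prod_ite_eq']
  simp
  field_simp

end count

/-- The digits seen before time `j`. -/
def seen {n m : ℕ} {C : Type} [DecidableEq C] (e : Fin m → Fin n × C) (j : ℕ) (c : Fin n → C) :
    Finset (Fin n) :=
  (univ.filter (fun i : Fin m => (i : ℕ) < j ∧ c (e i).1 = (e i).2)).image (fun i => (e i).1)

section seen
variable {n m : ℕ} {C : Type} [DecidableEq C]

theorem seen_injOn (e : Fin m → Fin n × C) (he : Function.Injective e) (j : ℕ) (c : Fin n → C) :
    Set.InjOn (fun i : Fin m => (e i).1)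
      ((univ.filter (fun i : Fin m => (i : ℕ) < j ∧ c (e i).1 = (e i).2) : Finset (Fin m)) :
        Set (Fin m)) := by
  intro i hi i' hi' h
  simp only [mem_coe, mem_filter, mem_univ, true_and] at hi hi'
  have h' : (e i).1 = (e i').1 := h
  apply he
  apply Prod.ext h'
  rw [← hi.2, ← hi'.2, h']

theorem not_mem_seen (e : Fin m → Fin n × C) (he : Function.Injective e) (j : Fin m)
    (c : Fin n → C) (hc : c (e j).1 = (e j).2) : (e j).1 ∉ seen e j c := by
  intro h
  simp only [seen, mem_image, mem_filter, mem_univ, true_and] at h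
  obtain ⟨i, ⟨hi, hi2⟩, hi3⟩ := h
  have : e i = e j := by
    apply Prod.ext hi3
    rw [← hi2, hi3, hc]
  have := he this
  subst this
  exact lt_irrefl _ hi

theorem seen_succ_pos (e : Fin m → Fin n × C) (j : Fin m)
    (c : Fin n → C) (hc : c (e j).1 = (e j).2) :
    seen e ((j : ℕ) + 1) c = insert (e j).1 (seen e j c) := by
  ext k
  simp only [seen, mem_image, mem_filter, mem_univ, true_and, mem_insert]
  constructor
  · rintro ⟨i, ⟨hi, hi2⟩, rfl⟩
    rcases Nat.lt_succ_iff_lt_or_eq.1 hi with h | h
    · exact Or.inr ⟨i, ⟨h, hi2⟩, rfl⟩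
    · have : i = j := Fin.ext h
      subst this
      exact Or.inl rfl
  · rintro (rfl | ⟨i, ⟨hi, hi2⟩, rfl⟩)
    · exact ⟨j, ⟨Nat.lt_succ_self _, hc⟩, rfl⟩
    · exact ⟨i, ⟨Nat.lt_succ_of_lt hi, hi2⟩, rfl⟩

theorem seen_succ_neg (e : Fin m → Fin n × C) (j : Fin m)
    (c : Fin n → C) (hc : c (e j).1 ≠ (e j).2) :
    seen e ((j : ℕ) + 1) c = seen e j c := by
  ext k
  simp only [seen, mem_image, mem_filter, mem_univ, true_and]
  constructor
  · rintro ⟨i, ⟨hi, hi2⟩, rfl⟩
    rcases Nat.lt_succ_iff_lt_or_eq.1 hi with h | h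
    · exact ⟨i, ⟨h, hi2⟩, rfl⟩
    · have : i = j := Fin.ext h
      subst this
      exact absurd hi2 hc
  · rintro ⟨i, ⟨hi, hi2⟩, rfl⟩
    exact ⟨i, ⟨Nat.lt_succ_of_lt hi, hi2⟩, rfl⟩

end seen

theorem Dent_mono (hINC : INC_stmt.{u}) {n : ℕ} {A : Type u} [AddCommGroup A] (β : Fin n → A)
    (s t : Finset (Fin n)) : Dent β s ≤ Dent β (s ∪ t) := by
  induction t using Finset.induction_on with
  | empty => simp
  | insert a t _ ih =>
    rw [union_insert]
    by_cases h : a ∈ s ∪ t
    · rw [insert_eq_of_mem h]; exact ih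
    · have := hINC (Fin n) A β (s ∪ t) a h 0
      simp at this
      exact ih.trans this

theorem AVG (hENT : ENT_stmt.{0, u, u}) (hINC : INC_stmt.{u}) : AVG_stmt.{u} := by
  classical
  intro K _ C _ _ α x n m e φ he
  have hq : (0 : ℝ) < (Fintype.card C : ℝ) := by
    exact_mod_cast Fintype.card_pos
  set q : ℝ := (Fintype.card C : ℝ) with hqdef
  -- weights
  let w : Fin m → Fin m → ℝ := fun j i => ‖φ j (α ^ ((e i).1 : ℕ) * x (e i).2)‖ ^ 2
  have hw : ∀ j i, 0 ≤ w j i := fun j i => by positivity
  let N : Fin m → ℝ := fun j => (1 / q) * ∑ i ∈ univ.filter (fun i => i < j), w j i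
  have hN : ∀ j, 0 ≤ N j := fun j => mul_nonneg (by positivity) (sum_nonneg fun i _ => hw j i)
  let β : (Fin n → C) → Fin n → K := fun c k => α ^ (k : ℕ) * x (c k)
  let Z : Fin m → (Fin n → C) → ℝ := fun j c =>
    ∑ i ∈ univ.filter (fun i : Fin m => i < j), (if c (e i).1 = (e i).2 then (1 : ℝ) else 0) * w j i
  have hZ : ∀ j c, 0 ≤ Z j c := fun j c => sum_nonneg fun i _ => by
    have := hw j i
    split_ifs <;> simp [this]
  -- the sum over seen
  have hZs : ∀ j : Fin m, ∀ c, ∑ l ∈ seen e j c, ‖φ j (β c l)‖ ^ 2 = Z j c := by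
    intro j c
    unfold seen
    rw [sum_image (seen_injOn e he j c)]
    simp only [Z]
    rw [Finset.sum_filter, Finset.sum_filter]
    apply sum_congr rfl
    intro i _
    by_cases h1 : i < j
    · by_cases h2 : c (e i).1 = (e i).2
      · have h1' : (i : ℕ) < j := h1
        rw [if_pos ⟨h1', h2⟩, if_pos h1, if_pos h2, one_mul]
        simp only [β, w]
        rw [h2]
      · rw [if_neg (fun h => h2 h.2), if_pos h1, if_neg h2, zero_mul]
    · rw [if_neg (fun h => h1 (by exact_mod_cast h.1)), if_neg h1]
  -- increments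
  have hinc : ∀ j : Fin m, ∀ c, (if c (e j).1 = (e j).2 then (1 : ℝ) else 0) *
      ((1 / 2) * (w j j / (w j j + Z j c))) ≤
      Dent (β c) (seen e ((j : ℕ) + 1) c) - Dent (β c) (seen e j c) := by
    intro j c
    by_cases h : c (e j).1 = (e j).2
    · rw [if_pos h, seen_succ_pos e j c h, one_mul]
      have hnm := not_mem_seen e he j c h
      have := hINC (Fin n) K (β c) (seen e j c) (e j).1 hnm (φ j)
      rw [sum_insert hnm, hZs j c] at this
      have hb : ‖φ j (β c (e j).1)‖ ^ 2 = w j j := by
        simp only [β, w]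
        rw [h]
      rw [hb] at this
      linarith
    · rw [if_neg h, seen_succ_neg e j c h]
      simp
  -- average of one increment
  have havg : ∀ j : Fin m, q ^ n * ((1 / q) * ((1 / 2) * (w j j / (w j j + N j)))) ≤
      ∑ c : Fin n → C, (if c (e j).1 = (e j).2 then (1 : ℝ) else 0) *
      ((1 / 2) * (w j j / (w j j + Z j c))) := by
    intro j
    rcases (hw j j).eq_or_lt with h0 | hS
    · rw [← h0]; simp
    · have hpt : ∀ c : Fin n → C, (if c (e j).1 = (e j).2 then (1 : ℝ) else 0) *
          ((1 / 2) * (w j j / (w j j + N j) + w j j * N j / (w j j + N j) ^ 2)) -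
          (1 / 2) * (w j j / (w j j + N j) ^ 2) *
            ((if c (e j).1 = (e j).2 then (1 : ℝ) else 0) * Z j c) ≤
          (if c (e j).1 = (e j).2 then (1 : ℝ) else 0) *
          ((1 / 2) * (w j j / (w j j + Z j c))) := by
        intro c
        by_cases h : c (e j).1 = (e j).2
        · simp only [if_pos h, one_mul]
          have := tangent (w j j) (Z j c) (N j) hS (hZ j c) (hN j)
          have h2 : w j j * (Z j c - N j) / (w j j + N j) ^ 2 =
            w j j / (w j j + N j) ^ 2 * Z j c - w j j * N j / (w j j + N j) ^ 2 := by ring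
          rw [h2] at this
          linarith
        · simp only [if_neg h, zero_mul, mul_zero, sub_zero, le_refl]
      have hsum := sum_le_sum (fun c (_ : c ∈ (univ : Finset (Fin n → C))) => hpt c)
      rw [sum_sub_distrib, ← sum_mul, ← mul_sum, count1] at hsum
      -- average of Z
      have hZavg : ∑ c : Fin n → C, (if c (e j).1 = (e j).2 then (1 : ℝ) else 0) * Z j c ≤
          q ^ n / q * N j := by
        have e1 : ∀ c : Fin n → C, (if c (e j).1 = (e j).2 then (1 : ℝ) else 0) * Z j c =
            ∑ i ∈ univ.filter (fun i : Fin m => i < j),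
              ((if c (e j).1 = (e j).2 then (1 : ℝ) else 0) *
                (if c (e i).1 = (e i).2 then (1 : ℝ) else 0)) * w j i := by
          intro c
          simp only [Z]
          rw [mul_sum]
          exact sum_congr rfl fun i _ => by ring
        rw [sum_congr rfl (fun c _ => e1 c), sum_comm]
        have e2 : q ^ n / q * N j = ∑ i ∈ univ.filter (fun i : Fin m => i < j),
            (q ^ n / q * (1 / q)) * w j i := by
          simp only [N]
          rw [← mul_sum]
          ring
        rw [e2]
        apply sum_le_sum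
        intro i hi
        rw [← sum_mul]
        apply mul_le_mul_of_nonneg_right _ (hw j i)
        simp only [mem_filter, mem_univ, true_and] at hi
        by_cases hk : (e j).1 = (e i).1
        · have hne : (e j).2 ≠ (e i).2 := by
            intro h
            exact hi.ne' (he (Prod.ext hk h))
          have h0 : ∀ c : Fin n → C, (if c (e j).1 = (e j).2 then (1 : ℝ) else 0) *
                (if c (e i).1 = (e i).2 then (1 : ℝ) else 0) = 0 := by
            intro c
            by_cases h1 : c (e j).1 = (e j).2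
            · have h2 : c (e i).1 ≠ (e i).2 := by
                rw [← hk, h1]; exact hne
              rw [if_neg h2, mul_zero]
            · rw [if_neg h1, zero_mul]
          rw [sum_congr rfl (fun c _ => h0 c), sum_const_zero]
          positivity
        · rw [count2 _ _ _ _ hk]
      have hpos : 0 ≤ (1 / 2) * (w j j / (w j j + N j) ^ 2) := by
        have := hw j j
        positivity
      have h3 := mul_le_mul_of_nonneg_left hZavg hpos
      refine le_trans ?_ hsum
      have h4 : q ^ n * ((1 / q) * ((1 / 2) * (w j j / (w j j + N j)))) =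
          q ^ n / q * ((1 / 2) * (w j j / (w j j + N j) + w j j * N j / (w j j + N j) ^ 2)) -
          (1 / 2) * (w j j / (w j j + N j) ^ 2) * (q ^ n / q * N j) := by ring
      rw [h4]
      linarith
  -- conclusion
  have hDent : ∀ c : Fin n → C, ∑ j : Fin m, (if c (e j).1 = (e j).2 then (1 : ℝ) else 0) *
      ((1 / 2) * (w j j / (w j j + Z j c))) ≤ Dent (β c) univ := by
    intro c
    have h1 := sum_le_sum (fun j (_ : j ∈ (univ : Finset (Fin m))) => hinc j c)
    rw [Fin.sum_univ_eq_sum_range (fun j => Dent (β c) (seen e (j + 1) c) -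
      Dent (β c) (seen e j c)) m, Finset.sum_range_sub (fun j => Dent (β c) (seen e j c))] at h1
    have h2 : Dent (β c) (seen e m c) ≤ Dent (β c) univ := by
      have := Dent_mono hINC (β c) (seen e m c) univ
      rwa [Finset.union_eq_right.2 (Finset.subset_univ _)] at this
    have h3 : 0 ≤ Dent (β c) (seen e 0 c) := hENT.1 _ _ _
    linarith
  have hfin : ∑ j : Fin m, q ^ n * ((1 / q) * ((1 / 2) * (w j j / (w j j + N j)))) ≤
      ∑ c : Fin n → C, Dent (β c) univ := by
    refine (sum_le_sum fun j _ => havg j).trans ?_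
    rw [sum_comm]
    exact sum_le_sum fun c _ => hDent c
  have hqn : 0 < q ^ n := by positivity
  change (1 / q) * ∑ j : Fin m, (1 / 2) * (w j j / (w j j + N j)) ≤
    (∑ c : Fin n → C, Dent (β c) univ) / q ^ n
  rw [le_div_iff₀ hqn]
  refine le_trans (le_of_eq ?_) hfin
  have hA : ∑ j : Fin m, (1 / 2) * (w j j / (w j j + N j)) =
      (1 / 2) * ∑ j : Fin m, (w j j / (w j j + N j)) := (mul_sum _ _ _).symm
  have hB : ∑ j : Fin m, q ^ n * ((1 / q) * ((1 / 2) * (w j j / (w j j + N j)))) =
      q ^ n * ((1 / q) * ((1 / 2) * ∑ j : Fin m, (w j j / (w j j + N j)))) := by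
    rw [mul_sum, mul_sum, mul_sum]
  rw [hA, hB]
  exact mul_comm _ _

end Pool.Agent.Helper33.GA
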